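import Mathlib

/-!
Measure preserving maps on locally compact groups (blocks CL, CM).
-/

set_option autoImplicit false

namespace Pool.Agent.Work.MP_970e75_an.Full

open Filter Topology Set MeasureTheory
open scoped ENNReal NNReal

section Commutator

variable {G : Type*} [Group G] [TopologicalSpace G] [IsTopologicalGroup G] [LocallyCompactSpace G]

theorem modularCharacterFun_eq_one_of_mem_commutator {x : G} (hx : x ∈ commutator G) :
    Measure.modularCharacterFun x = 1 := by
  have h1 := Abelianization.commutator_subset_ker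
    (Measure.modularCharacter (G := G)).toHomUnits hx
  rw [MonoidHom.mem_ker] at h1
  have h2 := congrArg Units.val h1
  rw [MonoidHom.coe_toHomUnits] at h2
  exact h2

/-- Left multiplication by a commutator or by a central element preserves the inverse of the
Haar measure. -/
theorem measurePreserving_mul_left_inv [MeasurableSpace G] [BorelSpace G] (μ : Measure G)
    [μ.IsHaarMeasure] [μ.InnerRegular] (x : G)
    (hx : x ∈ commutator G ∨ x ∈ Subgroup.center G) :
    MeasurePreserving (fun g => x * g) μ.inv μ.inv := by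
  rcases hx with hx | hx
  · refine ⟨measurable_const_mul x, ?_⟩
    have h1 : Measure.map (fun g => g * x⁻¹) μ = μ := by
      rw [Measure.map_right_mul_eq_modularCharacterFun_smul,
        modularCharacterFun_eq_one_of_mem_commutator (inv_mem hx), one_smul]
    calc Measure.map (fun g => x * g) μ.inv
        = Measure.map (fun g => x * g) (Measure.map Inv.inv μ) := rfl
      _ = Measure.map Inv.inv (Measure.map (fun g => g * x⁻¹) μ) := by
          rw [Measure.map_map (measurable_const_mul x) measurable_inv,
            Measure.map_map measurable_inv (measurable_mul_const _)]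
          congr 1
          funext g
          simp
      _ = μ.inv := by rw [h1]; rfl
  · have h1 := measurePreserving_mul_right μ.inv x
    have h2 : (fun g => x * g) = fun g => g * x := by
      funext g
      exact ((Subgroup.mem_center_iff.mp hx) g).symm
    rw [h2]
    exact h1

end Commutator

/-- A set met by every orbit of a measure preserving flow at countably many times is null. -/
theorem measure_zero_of_countable_times {G : Type*} [TopologicalSpace G]
    [SecondCountableTopology G] [MeasurableSpace G] [BorelSpace G] (μ : Measure G) [SFinite μ]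
    (θ : ℂ → G → G) (hc : Continuous fun p : ℂ × G => θ p.1 p.2)
    (hm : ∀ s, MeasurePreserving (θ s) μ μ) (S : Set G) (hS : IsClosed S)
    (hcount : ∀ g, {s | θ s g ∈ S}.Countable) : μ S = 0 := by
  have hmeas : MeasurableSet {p : ℂ × G | θ p.1 p.2 ∈ S} := (hS.preimage hc).measurableSet
  have h1 : (μ.prod (volume : Measure ℂ)) (Prod.swap ⁻¹' {p : ℂ × G | θ p.1 p.2 ∈ S}) = 0 := by
    apply Measure.measure_prod_null_of_ae_null (measurable_swap hmeas)
    refine Eventually.of_forall fun g => ?_
    show (volume : Measure ℂ) _ = 0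
    exact (hcount g).measure_zero _
  have h2 : ((volume : Measure ℂ).prod μ) {p : ℂ × G | θ p.1 p.2 ∈ S} = 0 := by
    have h3 : MeasurePreserving (Prod.swap : G × ℂ → ℂ × G) (μ.prod (volume : Measure ℂ))
        ((volume : Measure ℂ).prod μ) := Measure.measurePreserving_swap
    rw [← h3.measure_preimage hmeas.nullMeasurableSet]
    exact h1
  rw [Measure.measure_prod_null hmeas] at h2
  obtain ⟨s, hs⟩ := h2.exists
  have h4 : μ (θ s ⁻¹' S) = 0 := hs
  rwa [(hm s).measure_preimage hS.measurableSet.nullMeasurableSet] at h4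

section Twist

variable {G : Type*} [Group G] [TopologicalSpace G] [IsTopologicalGroup G]
  [MeasurableSpace G] [BorelSpace G]

/-- Twisting by a countably valued function. -/
theorem measure_preimage_twist_countable (μ : Measure G) [μ.IsMulRightInvariant] {ι : Type*}
    [Countable ι] (A : ι → Set G) (hA : ∀ i, MeasurableSet (A i))
    (hd : Pairwise (Function.onFun Disjoint A)) (hU : ⋃ i, A i = univ)
    (v : ι → G) (hAv : ∀ i g, g * v i ∈ A i ↔ g ∈ A i) (Φ : G → G)
    (hΦ : ∀ i, ∀ g ∈ A i, Φ g = g * v i) (O : Set G) (hO : MeasurableSet O) :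
    μ (Φ ⁻¹' O) = μ O := by
  have h1 : Φ ⁻¹' O = ⋃ i, (fun g => g * v i) ⁻¹' (A i ∩ O) := by
    ext g
    simp only [mem_preimage, mem_iUnion, mem_inter_iff, hAv]
    constructor
    · intro hg
      obtain ⟨i, hi⟩ := mem_iUnion.mp (hU ▸ mem_univ g)
      exact ⟨i, hi, by rwa [← hΦ i g hi]⟩
    · rintro ⟨i, hi, hg⟩
      rwa [hΦ i g hi]
  have h2 : O = ⋃ i, A i ∩ O := by
    rw [← iUnion_inter, hU, univ_inter]
  have h3 : ∀ i, MeasurableSet ((fun g => g * v i) ⁻¹' (A i ∩ O)) := fun i =>
    (measurable_mul_const (v i)) ((hA i).inter hO)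
  have h4 : Pairwise (Function.onFun Disjoint fun i => (fun g => g * v i) ⁻¹' (A i ∩ O)) := by
    intro i j hij
    rw [Function.onFun, Set.disjoint_left]
    rintro g ⟨h5, -⟩ ⟨h6, -⟩
    exact Set.disjoint_left.mp (hd hij) ((hAv i g).mp h5) ((hAv j g).mp h6)
  rw [h1, measure_iUnion h4 h3]
  conv_rhs => rw [h2]
  rw [measure_iUnion (fun i j hij => (hd hij).mono inter_subset_left inter_subset_left)
    (fun i => (hA i).inter hO)]
  congr 1
  funext i
  exact measure_preimage_mul_right μ (v i) _

/-- Twisting by a continuous function: one inequality, on open sets. -/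
theorem measure_preimage_twist_le (μ : Measure G) [μ.IsMulRightInvariant] (z : ℂ → G)
    (hz : Continuous z) (ψ : G → ℂ) (hψ : Continuous ψ) (hinv : ∀ g s, ψ (g * z s) = ψ g)
    (O : Set G) (hO : IsOpen O) : μ ((fun g => g * z (ψ g)) ⁻¹' O) ≤ μ O := by
  classical
  -- rounding
  let r : ℕ → ℂ → ℤ × ℤ := fun n w => (⌊(n + 1) * w.re⌋, ⌊(n + 1) * w.im⌋)
  let c : ℕ → ℤ × ℤ → ℂ := fun n k => ⟨k.1 / (n + 1), k.2 / (n + 1)⟩
  have hrm : ∀ n, Measurable (r n) := fun n =>
    ((measurable_const.mul Complex.measurable_re).floor).prodMk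
      ((measurable_const.mul Complex.measurable_im).floor)
  let Φ : ℕ → G → G := fun n g => g * z (c n (r n (ψ g)))
  have hΦ : ∀ n, μ (Φ n ⁻¹' O) = μ O := by
    intro n
    apply measure_preimage_twist_countable μ (fun k : ℤ × ℤ => (fun g => r n (ψ g)) ⁻¹' {k})
      (fun k => ((hrm n).comp hψ.measurable) (measurableSet_singleton k)) ?_ ?_
      (fun k => z (c n k)) ?_ (Φ n) ?_ O hO.measurableSet
    · intro i j hij
      rw [Function.onFun, Set.disjoint_left]
      intro g h1 h2
      exact hij (h1.symm.trans h2)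
    · ext g; simp
    · intro k g
      simp only [mem_preimage, mem_singleton_iff, hinv]
    · intro k g hg
      have hg' : r n (ψ g) = k := hg
      show g * z (c n (r n (ψ g))) = g * z (c n k)
      rw [hg']
  have hlim : ∀ w : ℂ, Tendsto (fun n => c n (r n w)) atTop (𝓝 w) := by
    have hfl : ∀ x : ℝ, Tendsto (fun n : ℕ => (⌊((n : ℝ) + 1) * x⌋ : ℝ) / ((n : ℝ) + 1)) atTop
        (𝓝 x) := by
      intro x
      rw [tendsto_iff_norm_sub_tendsto_zero]
      refine squeeze_zero (fun _ => norm_nonneg _) (fun n => ?_)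
        tendsto_one_div_add_atTop_nhds_zero_nat
      have hn : (0 : ℝ) < (n : ℝ) + 1 := by positivity
      have h1 : (⌊((n : ℝ) + 1) * x⌋ : ℝ) / ((n : ℝ) + 1) - x =
          -((((n : ℝ) + 1) * x - ⌊((n : ℝ) + 1) * x⌋) / ((n : ℝ) + 1)) := by
        field_simp
        ring
      rw [h1, norm_neg, Real.norm_eq_abs, abs_div, abs_of_pos hn]
      apply div_le_div_of_nonneg_right _ hn.le
      have h2 := Int.floor_le (((n : ℝ) + 1) * x)
      have h3 := Int.lt_floor_add_one (((n : ℝ) + 1) * x)
      rw [abs_of_nonneg (by linarith)]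
      linarith
    intro w
    have h2 := (Complex.continuous_ofReal.tendsto w.re).comp (hfl w.re)
    have h3 := (Complex.continuous_ofReal.tendsto w.im).comp (hfl w.im)
    have h4 := h2.add (h3.mul_const Complex.I)
    have h5 : (w.re : ℂ) + w.im * Complex.I = w := Complex.re_add_im w
    rw [h5] at h4
    refine h4.congr fun n => ?_
    show ((((⌊((n : ℝ) + 1) * w.re⌋ : ℝ) / ((n : ℝ) + 1) : ℝ) : ℂ) +
      (((⌊((n : ℝ) + 1) * w.im⌋ : ℝ) / ((n : ℝ) + 1) : ℝ) : ℂ) * Complex.I) = c n (r n w)
    rw [← Complex.mk_eq_add_mul_I]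
  let B : ℕ → Set G := fun N => ⋂ n ≥ N, Φ n ⁻¹' O
  have hBmono : Monotone B := by
    intro N N' hN g hg
    simp only [B, mem_iInter] at hg ⊢
    exact fun n hn => hg n (hN.trans hn)
  have hsub : (fun g => g * z (ψ g)) ⁻¹' O ⊆ ⋃ N, B N := by
    intro g hg
    have h1 : Tendsto (fun n => Φ n g) atTop (𝓝 (g * z (ψ g))) :=
      ((continuous_const.mul hz).tendsto (ψ g)).comp (hlim (ψ g))
    have h2 : ∀ᶠ n in atTop, Φ n g ∈ O := h1 (hO.mem_nhds hg)
    obtain ⟨N, hN⟩ := eventually_atTop.mp h2
    refine mem_iUnion.mpr ⟨N, ?_⟩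
    simp only [B, mem_iInter]
    exact fun n hn => hN n hn
  calc μ ((fun g => g * z (ψ g)) ⁻¹' O) ≤ μ (⋃ N, B N) := measure_mono hsub
    _ = ⨆ N, μ (B N) := hBmono.measure_iUnion
    _ ≤ μ O := by
        apply iSup_le
        intro N
        rw [← hΦ N]
        apply measure_mono
        intro g hg
        simp only [B, mem_iInter] at hg
        exact hg N le_rfl

/-- Twisting by a continuous function preserves a regular right invariant measure. -/
theorem measurePreserving_twist (μ : Measure G) [μ.IsMulRightInvariant] [μ.OuterRegular]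
    (z : ℂ → G) (hz : Continuous z) (hza : ∀ s u, z (s + u) = z s * z u)
    (ψ : G → ℂ) (hψ : Continuous ψ) (hinv : ∀ g s, ψ (g * z s) = ψ g) :
    MeasurePreserving (fun g => g * z (ψ g)) μ μ := by
  have hz0 : z 0 = 1 := by
    have h := hza 0 0
    rw [add_zero] at h
    exact (mul_eq_left.mp h.symm)
  have hinv' : ∀ g s, (fun g => -ψ g) (g * z s) = (fun g => -ψ g) g := by
    intro g s
    simp only [hinv]
  let Ψ : G ≃ₜ G :=
    { toFun := fun g => g * z (ψ g)
      invFun := fun g => g * z (-ψ g)
      left_inv := by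
        intro g
        simp only [hinv]
        rw [mul_assoc, ← hza, add_neg_cancel, hz0, mul_one]
      right_inv := by
        intro g
        simp only [hinv]
        rw [mul_assoc, ← hza, neg_add_cancel, hz0, mul_one]
      continuous_toFun := continuous_id.mul (hz.comp hψ)
      continuous_invFun := continuous_id.mul (hz.comp hψ.neg) }
  refine ⟨Ψ.continuous.measurable, ?_⟩
  have h1 : (Measure.map (fun g => g * z (ψ g)) μ).OuterRegular :=
    Measure.OuterRegular.map Ψ μ
  apply Measure.OuterRegular.ext_isOpen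
  intro U hU
  have hΨm : Measurable fun g => g * z (ψ g) := Ψ.continuous.measurable
  rw [Measure.map_apply hΨm hU.measurableSet]
  apply le_antisymm
  · exact measure_preimage_twist_le μ z hz ψ hψ hinv U hU
  · have h2 := measure_preimage_twist_le μ z hz (fun g => -ψ g) hψ.neg hinv'
      ((fun g => g * z (ψ g)) ⁻¹' U) (hU.preimage Ψ.continuous)
    have h3 : (fun g => g * z (-ψ g)) ⁻¹' ((fun g => g * z (ψ g)) ⁻¹' U) = U := by
      ext g
      have h4 : Ψ (Ψ.symm g) = g := Ψ.apply_symm_apply g
      show Ψ (Ψ.symm g) ∈ U ↔ g ∈ U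
      rw [h4]
    rw [h3] at h2
    exact h2

end Twist

end Pool.Agent.Work.MP_970e75_an.Full
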