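import Pool.Agent.Work.MP_970e75_an_helper39.LX
import Pool.Agent.Work.MP_970e75_an_helper72.LX1

/-!
Block LX.
-/

set_option autoImplicit false

namespace Pool.Agent.Work.MP_970e75_an.Full

theorem stmt_LX : Stmt_LX :=
  stmt_LX_of_LX1plus fun E _ _ _ G _ _ _ _ _ => LX.LX1plus E G

end Pool.Agent.Work.MP_970e75_an.Full
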