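import Pool.Agent.Work.MP_970e75_an_helper39.LX2
import Pool.Agent.Work.MP_970e75_an.Full.Tools

/-!
Block LX: the bracket, the exponential formula for the adjoint representation, the Jacobi
identity, exponentials of commuting elements.
-/

set_option autoImplicit false
set_option linter.unusedSectionVars false

namespace Pool.Agent.Work.MP_970e75_an.Full

open Filter Topology Set
open scoped Manifold ContDiff Topology
open Pool.Agent.Work.MP_970e75_an.Gen

/-- A one-parameter group in a Banach algebra is an exponential. -/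
theorem eq_exp_of_hasDerivAt {A : Type*} [NormedRing A] [NormedAlgebra ℂ A] [CompleteSpace A]
    (f : ℂ → A) (B : A) (h0 : f 0 = 1) (h : ∀ s, HasDerivAt f (f s * B) s) (s : ℂ) :
    f s = NormedSpace.exp (s • B) := by
  let _ : NormedAlgebra ℚ A := NormedAlgebra.restrictScalars ℚ ℂ A
  have h1 : ∀ s : ℂ, HasDerivAt (fun s : ℂ => f s * NormedSpace.exp (s • (-B))) 0 s := by
    intro s
    have h2 : HasDerivAt (fun s : ℂ => f s * NormedSpace.exp (s • (-B)))
        (f s * B * NormedSpace.exp (s • -B) + f s * (-B * NormedSpace.exp (s • -B))) s :=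
      (h s).mul (hasDerivAt_exp_smul_const' (-B) s)
    have h3 : f s * B * NormedSpace.exp (s • -B) + f s * (-B * NormedSpace.exp (s • -B)) = 0 := by
      rw [mul_assoc, ← mul_add, neg_mul, add_neg_cancel, mul_zero]
    rwa [h3] at h2
  have h3 : Differentiable ℂ (fun s : ℂ => f s * NormedSpace.exp (s • (-B))) :=
    fun s => (h1 s).differentiableAt
  have h4 := is_const_of_deriv_eq_zero h3 (fun s => (h1 s).deriv) s 0
  simp only [h0, zero_smul, NormedSpace.exp_zero, mul_one] at h4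
  have h5 : NormedSpace.exp (s • (-B)) * NormedSpace.exp (s • B) = 1 := by
    rw [← NormedSpace.exp_add_of_commute, smul_neg, neg_add_cancel, NormedSpace.exp_zero]
    rw [smul_neg]
    exact (Commute.refl _).neg_left
  calc f s = f s * (NormedSpace.exp (s • (-B)) * NormedSpace.exp (s • B)) := by rw [h5, mul_one]
    _ = NormedSpace.exp (s • B) := by rw [← mul_assoc, h4, one_mul]

namespace LocalExp

variable {E : Type} [NormedAddCommGroup E] [NormedSpace ℂ E] [FiniteDimensional ℂ E] {G : Type}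
    [TopologicalSpace G] [ChartedSpace E G] [Group G] (T : LocalExp E G) [LieGroup 𝓘(ℂ, E) ω G]

/-- The bracket. -/
noncomputable def br : E →L[ℂ] E →L[ℂ] E := fderiv ℂ (fun Z => T.Ad (T.exp Z)) 0

theorem hasFDerivAt_br : HasFDerivAt (fun Z => T.Ad (T.exp Z)) T.br 0 := by
  apply DifferentiableAt.hasFDerivAt
  exact mdifferentiableAt_iff_differentiableAt.mp ((T.Ad_hol.comp T.exp_hol) 0)

theorem Ad_exp_zero (X : E) : T.Ad (T.exp ((0 : ℂ) • X)) = 1 := by
  rw [zero_smul, T.exp_zero, T.Ad_one]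
  rfl

theorem hasDerivAt_Ad_exp_zero (X : E) :
    HasDerivAt (fun s : ℂ => T.Ad (T.exp (s • X))) (T.br X) 0 := by
  have h2 : HasDerivAt (fun s : ℂ => s • X) X 0 := by
    simpa using (hasDerivAt_id (0 : ℂ)).smul_const X
  have h3 := T.hasFDerivAt_br
  rw [← zero_smul ℂ X] at h3
  exact h3.comp_hasDerivAt 0 h2

theorem Ad_exp_add (X : E) (s t : ℂ) :
    T.Ad (T.exp ((s + t) • X)) = T.Ad (T.exp (s • X)) * T.Ad (T.exp (t • X)) := by
  rw [T.exp_add, T.Ad_mul]
  rfl

theorem hasDerivAt_Ad_exp (X : E) (s : ℂ) :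
    HasDerivAt (fun s : ℂ => T.Ad (T.exp (s • X))) (T.Ad (T.exp (s • X)) * T.br X) s := by
  have h1 : HasDerivAt (fun t : ℂ => T.Ad (T.exp (s • X)) * T.Ad (T.exp ((t - s) • X)))
      (T.Ad (T.exp (s • X)) * T.br X) s := by
    have h2 : HasDerivAt (fun t : ℂ => T.Ad (T.exp ((t - s) • X))) (T.br X) s := by
      have h3 : HasDerivAt (fun s : ℂ => T.Ad (T.exp (s • X))) (T.br X) (s - s) := by
        rw [sub_self]; exact T.hasDerivAt_Ad_exp_zero X
      exact h3.comp_sub_const s s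
    exact h2.const_mul _
  have h4 : (fun s : ℂ => T.Ad (T.exp (s • X))) =
      fun t : ℂ => T.Ad (T.exp (s • X)) * T.Ad (T.exp ((t - s) • X)) := by
    funext t
    rw [← T.Ad_exp_add, add_sub_cancel]
  rw [h4]
  simpa using h1

theorem Ad_exp_smul_eq (X : E) (s : ℂ) :
    T.Ad (T.exp (s • X)) = NormedSpace.exp (s • T.br X) := by
  have : CompleteSpace E := FiniteDimensional.complete ℂ E
  exact eq_exp_of_hasDerivAt (fun s : ℂ => T.Ad (T.exp (s • X))) (T.br X) (T.Ad_exp_zero X)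
    (T.hasDerivAt_Ad_exp X) s

theorem Ad_exp (X : E) : T.Ad (T.exp X) = NormedSpace.exp (T.br X) := by
  have := T.Ad_exp_smul_eq X 1
  rwa [one_smul, one_smul] at this

theorem exp_comm_self (X : E) (s t : ℂ) :
    T.exp (s • X) * T.exp (t • X) = T.exp (t • X) * T.exp (s • X) := by
  rw [← T.exp_add, ← T.exp_add, add_comm]

theorem br_self (X : E) : T.br X X = 0 := by
  have h1 : ∀ s : ℂ, T.Ad (T.exp (s • X)) X = X := by
    intro s
    apply T.Ad_eq
    intro t
    rw [T.exp_comm_self, mul_inv_cancel_right]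
  have h2 : HasDerivAt (fun s : ℂ => T.Ad (T.exp (s • X)) X) (T.br X X) 0 := by
    have := (T.hasDerivAt_Ad_exp_zero X).clm_apply (hasDerivAt_const (0 : ℂ) X)
    simpa using this
  have h3 : (fun s : ℂ => T.Ad (T.exp (s • X)) X) = fun _ => X := by
    funext s; exact h1 s
  rw [h3] at h2
  exact h2.unique (hasDerivAt_const _ _)

theorem br_Ad (g : G) (Y Z : E) : T.br (T.Ad g Y) (T.Ad g Z) = T.Ad g (T.br Y Z) := by
  have h1 : HasDerivAt (fun s : ℂ => T.Ad (T.exp (s • T.Ad g Y)) (T.Ad g Z))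
      (T.br (T.Ad g Y) (T.Ad g Z)) 0 := by
    have := (T.hasDerivAt_Ad_exp_zero (T.Ad g Y)).clm_apply (hasDerivAt_const (0 : ℂ) (T.Ad g Z))
    simpa using this
  have h2 : HasDerivAt (fun s : ℂ => T.Ad g (T.Ad (T.exp (s • Y)) Z)) (T.Ad g (T.br Y Z)) 0 := by
    have h3 := (T.hasDerivAt_Ad_exp_zero Y).clm_apply (hasDerivAt_const (0 : ℂ) Z)
    have h4 : HasDerivAt (fun s : ℂ => T.Ad (T.exp (s • Y)) Z) (T.br Y Z) 0 := by
      simpa using h3
    exact (T.Ad g).hasFDerivAt.comp_hasDerivAt 0 h4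
  have h5 : (fun s : ℂ => T.Ad (T.exp (s • T.Ad g Y)) (T.Ad g Z)) =
      fun s : ℂ => T.Ad g (T.Ad (T.exp (s • Y)) Z) := by
    funext s
    rw [T.exp_smul_Ad]
    show (T.Ad (g * T.exp (s • Y) * g⁻¹)).comp (T.Ad g) Z =
      (T.Ad g).comp (T.Ad (T.exp (s • Y))) Z
    rw [← T.Ad_mul, ← T.Ad_mul, inv_mul_cancel_right]
  rw [h5] at h1
  exact h1.unique h2

theorem jacobi (X Y Z : E) :
    T.br X (T.br Y Z) = T.br (T.br X Y) Z + T.br Y (T.br X Z) := by
  have hA : ∀ V : E, HasDerivAt (fun s : ℂ => T.Ad (T.exp (s • X)) V) (T.br X V) 0 := by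
    intro V
    have h3 := (T.hasDerivAt_Ad_exp_zero X).clm_apply (hasDerivAt_const (0 : ℂ) V)
    simpa using h3
  have h0 : ∀ V : E, T.Ad (T.exp ((0 : ℂ) • X)) V = V := by
    intro V
    rw [T.Ad_exp_zero]
    rfl
  have h1 : HasDerivAt (fun s : ℂ => T.br (T.Ad (T.exp (s • X)) Y) (T.Ad (T.exp (s • X)) Z))
      (T.br (T.br X Y) Z + T.br Y (T.br X Z)) 0 := by
    have h2 : HasDerivAt (fun s : ℂ => T.br (T.Ad (T.exp (s • X)) Y)) (T.br (T.br X Y)) 0 :=
      T.br.hasFDerivAt.comp_hasDerivAt 0 (hA Y)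
    have h3 := h2.clm_apply (hA Z)
    rw [h0, h0] at h3
    exact h3
  have h4 : (fun s : ℂ => T.br (T.Ad (T.exp (s • X)) Y) (T.Ad (T.exp (s • X)) Z)) =
      fun s : ℂ => T.Ad (T.exp (s • X)) (T.br Y Z) := by
    funext s
    exact T.br_Ad _ Y Z
  rw [h4] at h1
  exact (hA (T.br Y Z)).unique h1

theorem exp_comm (X Y : E) (h : T.br X Y = 0) : T.exp (X + Y) = T.exp X * T.exp Y := by
  have hcomm : ∀ s t : ℂ, T.exp (s • X) * T.exp (t • Y) = T.exp (t • Y) * T.exp (s • X) := by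
    intro s t
    have h1 : T.Ad (T.exp (s • X)) Y = Y := by
      rw [T.Ad_exp_smul_eq]
      apply exp_apply_of_apply_eq_zero
      rw [smul_apply, h, smul_zero]
    have h2 := T.exp_smul_Ad (T.exp (s • X)) Y t
    rw [h1] at h2
    rw [eq_mul_inv_iff_mul_eq] at h2
    exact h2.symm
  obtain ⟨N, hN⟩ : ∃ N : ℕ, max (max ‖X‖ ‖Y‖) ‖X + Y‖ < N * T.r := by
    obtain ⟨N, hN⟩ := exists_nat_gt (max (max ‖X‖ ‖Y‖) ‖X + Y‖ / T.r)
    exact ⟨N, by rwa [div_lt_iff₀ T.r_pos] at hN⟩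
  have h1 := (le_max_left _ _).trans_lt ((le_max_left _ _).trans_lt hN)
  have h2 := (le_max_right _ _).trans_lt ((le_max_left _ _).trans_lt hN)
  have h3 := (le_max_right _ _).trans_lt hN
  have hNpos : (0 : ℝ) < N := by
    by_contra hcon
    have h4 : (N : ℝ) * T.r ≤ 0 := mul_nonpos_of_nonpos_of_nonneg (not_lt.mp hcon) T.r_pos.le
    linarith [norm_nonneg X]
  have hN0 : (N : ℂ) ≠ 0 := by
    have : (N : ℝ) ≠ 0 := hNpos.ne'
    exact_mod_cast this
  have key : ∀ Z : E, ‖Z‖ < N * T.r → ‖(N : ℂ)⁻¹ • Z‖ < T.r := by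
    intro Z hZ
    rw [norm_smul, norm_inv, Complex.norm_natCast, inv_mul_lt_iff₀ hNpos]
    exact hZ
  have h4 : T.exp ((N : ℂ)⁻¹ • X + (N : ℂ)⁻¹ • Y) =
      T.exp ((N : ℂ)⁻¹ • X) * T.exp ((N : ℂ)⁻¹ • Y) :=
    T.exp_add_of_comm_small _ _ (key X h1) (key Y h2) (by rw [← smul_add]; exact key _ h3)
      (hcomm _ _)
  have hpow : ∀ Z : E, T.exp ((N : ℂ)⁻¹ • Z) ^ N = T.exp Z := by
    intro Z
    rw [← T.exp_nsmul, smul_smul, mul_inv_cancel₀ hN0, one_smul]
  rw [← hpow (X + Y), smul_add, h4, Commute.mul_pow (hcomm _ _), hpow, hpow]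

/-- The Lie group tools. -/
noncomputable def lieTools : LieTools E G where
  exp := T.exp
  log := T.log
  U := T.U
  Ad := T.Ad
  br := T.br
  exp_hol := T.exp_hol
  exp_add := T.exp_add
  U_open := T.U_open
  one_mem := T.one_mem
  log_hol := T.log_hol
  exp_log := T.exp_log
  log_exp := by
    filter_upwards [Metric.ball_mem_nhds (0 : E) T.r_pos] with X hX
    exact T.log_exp X (by simpa using hX)
  Ad_hol := T.Ad_hol
  Ad_one := T.Ad_one
  Ad_mul := T.Ad_mul
  exp_Ad := T.exp_Ad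
  Ad_exp := T.Ad_exp
  br_self := T.br_self
  jacobi := T.jacobi
  exp_comm := T.exp_comm

end LocalExp

/-- Block LX, given the local exponential map. -/
theorem stmt_LX_of_LX1plus (h : Stmt_LX1plus) : Stmt_LX := by
  intro E _ _ _ G _ _ _ _ _
  obtain ⟨T⟩ := exists_localExp h E G
  exact ⟨T.lieTools⟩

end Pool.Agent.Work.MP_970e75_an.Full
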