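import Pool.Agent.Work.MP_970e75_an.Full.Interface
import Pool.Agent.Work.MP_970e75_an.Gen.TwoFlows

/-!
Block LX: the local exponential map (statement) and the global exponential map.
-/

set_option autoImplicit false

namespace Pool.Agent.Work.MP_970e75_an.Full

open Filter Topology Set
open scoped Manifold ContDiff Topology
open Pool.Agent.Work.MP_970e75_an.Gen

/-- The local exponential map and logarithm (proved by helper72). -/
def Stmt_LX1plus : Prop :=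
  ∀ (E : Type) [NormedAddCommGroup E] [NormedSpace ℂ E] [FiniteDimensional ℂ E] (G : Type)
    [TopologicalSpace G] [ChartedSpace E G] [Group G] [LieGroup 𝓘(ℂ, E) ω G] [T2Space G],
    ∃ (r : ℝ) (e : E → G) (log : G → E) (U : Set G), 0 < r ∧ e 0 = 1 ∧ IsOpen U ∧ (1 : G) ∈ U ∧
      MDifferentiableOn 𝓘(ℂ, E) 𝓘(ℂ, E) e (Metric.ball 0 r) ∧
      MDifferentiableOn 𝓘(ℂ, E) 𝓘(ℂ, E) log U ∧
      (∀ g ∈ U, ‖log g‖ < r ∧ e (log g) = g) ∧
      (∀ X, ‖X‖ < r → e X ∈ U ∧ log (e X) = X) ∧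
      (∀ (X : E) (s t : ℂ), ‖s • X‖ < r → ‖t • X‖ < r → ‖(s + t) • X‖ < r →
        e ((s + t) • X) = e (s • X) * e (t • X)) ∧
      (∀ X Y : E, ‖X‖ < r → ‖Y‖ < r → ‖X + Y‖ < r → e X * e Y = e Y * e X →
        e (X + Y) = e X * e Y)

/-- A local exponential map and logarithm. -/
structure LocalExp (E : Type) [NormedAddCommGroup E] [NormedSpace ℂ E] (G : Type)
    [TopologicalSpace G] [ChartedSpace E G] [Group G] where
  r : ℝ
  e : E → G
  log : G → E
  U : Set G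
  r_pos : 0 < r
  e_zero : e 0 = 1
  U_open : IsOpen U
  one_mem : (1 : G) ∈ U
  e_hol : MDifferentiableOn 𝓘(ℂ, E) 𝓘(ℂ, E) e (Metric.ball 0 r)
  log_hol : MDifferentiableOn 𝓘(ℂ, E) 𝓘(ℂ, E) log U
  norm_log : ∀ g ∈ U, ‖log g‖ < r
  e_log : ∀ g ∈ U, e (log g) = g
  e_mem : ∀ X, ‖X‖ < r → e X ∈ U
  log_e : ∀ X, ‖X‖ < r → log (e X) = X
  e_add : ∀ (X : E) (s t : ℂ), ‖s • X‖ < r → ‖t • X‖ < r → ‖(s + t) • X‖ < r →
        e ((s + t) • X) = e (s • X) * e (t • X)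
  e_comm : ∀ X Y : E, ‖X‖ < r → ‖Y‖ < r → ‖X + Y‖ < r → e X * e Y = e Y * e X →
        e (X + Y) = e X * e Y

theorem exists_localExp (h : Stmt_LX1plus) (E : Type) [NormedAddCommGroup E] [NormedSpace ℂ E]
    [FiniteDimensional ℂ E] (G : Type)
    [TopologicalSpace G] [ChartedSpace E G] [Group G] [LieGroup 𝓘(ℂ, E) ω G] [T2Space G] :
    Nonempty (LocalExp E G) := by
  obtain ⟨r, e, log, U, h1, h2, h3, h4, h5, h6, h7, h8, h9, h10⟩ := h E G
  exact ⟨⟨r, e, log, U, h1, h2, h3, h4, h5, h6, fun g hg => (h7 g hg).1, fun g hg => (h7 g hg).2,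
    fun X hX => (h8 X hX).1, fun X hX => (h8 X hX).2, h9, h10⟩⟩

namespace LocalExp

variable {E : Type} [NormedAddCommGroup E] [NormedSpace ℂ E] {G : Type}
    [TopologicalSpace G] [ChartedSpace E G] [Group G] (T : LocalExp E G)

/-- Powers of small exponentials. -/
theorem e_nsmul (Y : E) (k : ℕ) (h : ‖(k : ℂ) • Y‖ < T.r) : T.e ((k : ℂ) • Y) = T.e Y ^ k := by
  induction k with
  | zero => simp [T.e_zero]
  | succ k ih =>
    have hle : ∀ j : ℕ, j ≤ k + 1 → ‖(j : ℂ) • Y‖ < T.r := by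
      intro j hj
      refine lt_of_le_of_lt ?_ h
      rw [norm_smul, norm_smul, Complex.norm_natCast, Complex.norm_natCast]
      gcongr
    have h1 := ih (hle k (Nat.le_succ k))
    rw [pow_succ, ← h1]
    have h2 := T.e_add Y (k : ℂ) 1 (hle k (Nat.le_succ k)) (by
      have := hle 1 (by omega)
      simpa using this) (by
      have := hle (k + 1) le_rfl
      push_cast at this
      exact this)
    push_cast
    rw [h2, one_smul]

/-- The scaling factor used in the definition of the exponential map. -/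
noncomputable def N (X : E) : ℕ := ⌊‖X‖ / T.r⌋₊ + 1

theorem lt_N (X : E) : ‖X‖ < T.N X * T.r := by
  have h := Nat.lt_floor_add_one (‖X‖ / T.r)
  rw [div_lt_iff₀ T.r_pos] at h
  unfold N
  push_cast
  exact h

/-- The exponential map. -/
noncomputable def exp (X : E) : G := T.e (((T.N X : ℂ))⁻¹ • X) ^ T.N X

theorem e_pow_eq (X : E) (N M : ℕ) (hM : 0 < M) (h : ‖X‖ < N * T.r) :
    T.e ((N : ℂ)⁻¹ • X) ^ N = T.e (((N * M : ℕ) : ℂ)⁻¹ • X) ^ (N * M) := by
  have hN : 0 < N := by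
    rcases Nat.eq_zero_or_pos N with h0 | h0
    · subst h0
      simp only [Nat.cast_zero, zero_mul] at h
      exact absurd h (not_lt.mpr (norm_nonneg X))
    · exact h0
  have hN' : (N : ℂ) ≠ 0 := Nat.cast_ne_zero.mpr hN.ne'
  have hM' : (M : ℂ) ≠ 0 := Nat.cast_ne_zero.mpr hM.ne'
  have h1 : (M : ℂ) • (((N * M : ℕ) : ℂ)⁻¹ • X) = (N : ℂ)⁻¹ • X := by
    rw [smul_smul]
    congr 1
    push_cast
    field_simp
  have h2 : ‖(N : ℂ)⁻¹ • X‖ < T.r := by
    rw [norm_smul, norm_inv, Complex.norm_natCast]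
    have : (0 : ℝ) < N := Nat.cast_pos.mpr hN
    rw [inv_mul_lt_iff₀ this]
    exact h
  have h3 := T.e_nsmul (((N * M : ℕ) : ℂ)⁻¹ • X) M (by rw [h1]; exact h2)
  rw [← h1, h3, ← pow_mul, mul_comm M N]

theorem exp_eq (X : E) (N : ℕ) (h : ‖X‖ < N * T.r) : T.exp X = T.e ((N : ℂ)⁻¹ • X) ^ N := by
  have hN : 0 < N := by
    rcases Nat.eq_zero_or_pos N with h0 | h0
    · subst h0
      simp only [Nat.cast_zero, zero_mul] at h
      exact absurd h (not_lt.mpr (norm_nonneg X))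
    · exact h0
  have hN' : 0 < T.N X := Nat.succ_pos _
  unfold exp
  rw [T.e_pow_eq X (T.N X) N hN (T.lt_N X), T.e_pow_eq X N (T.N X) hN' h, mul_comm (T.N X) N]

theorem exp_eq_e (X : E) (h : ‖X‖ < T.r) : T.exp X = T.e X := by
  have := T.exp_eq X 1 (by simpa using h)
  simpa using this

theorem exp_zero : T.exp 0 = 1 := by
  rw [T.exp_eq_e 0 (by simpa using T.r_pos), T.e_zero]

theorem exp_hol [LieGroup 𝓘(ℂ, E) ω G] : MDifferentiable 𝓘(ℂ, E) 𝓘(ℂ, E) T.exp := by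
  intro X
  set N := T.N X with hN
  have h1 : T.exp =ᶠ[𝓝 X] fun Y => T.e ((N : ℂ)⁻¹ • Y) ^ N := by
    have h2 : ∀ᶠ Y in 𝓝 X, ‖Y‖ < N * T.r :=
      (isOpen_lt continuous_norm continuous_const).mem_nhds (T.lt_N X)
    filter_upwards [h2] with Y hY
    exact T.exp_eq Y N hY
  refine MDifferentiableAt.congr_of_eventuallyEq ?_ h1
  have hNpos : (0 : ℝ) < N := Nat.cast_pos.mpr (Nat.succ_pos _)
  have h3 : ‖(N : ℂ)⁻¹ • X‖ < T.r := by
    rw [norm_smul, norm_inv, Complex.norm_natCast, inv_mul_lt_iff₀ hNpos]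
    exact T.lt_N X
  have h4 : MDifferentiableAt 𝓘(ℂ, E) 𝓘(ℂ, E) T.e ((N : ℂ)⁻¹ • X) :=
    (T.e_hol _ (by simpa using h3)).mdifferentiableAt
      (Metric.isOpen_ball.mem_nhds (by simpa using h3))
  have h5 : MDifferentiableAt 𝓘(ℂ, E) 𝓘(ℂ, E) (fun Y : E => (N : ℂ)⁻¹ • Y) X :=
    (differentiableAt_id.const_smul _).mdifferentiableAt
  have h6 := (contMDiff_pow (I := 𝓘(ℂ, E)) (n := ω) (G := G) N).mdifferentiableAt (by simp)
    (x := T.e ((N : ℂ)⁻¹ • X))
  exact h6.comp X (h4.comp X h5)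

theorem exp_add (X : E) (s t : ℂ) : T.exp ((s + t) • X) = T.exp (s • X) * T.exp (t • X) := by
  obtain ⟨N, hN⟩ : ∃ N : ℕ, max (max ‖s • X‖ ‖t • X‖) ‖(s + t) • X‖ < N * T.r := by
    obtain ⟨N, hN⟩ := exists_nat_gt (max (max ‖s • X‖ ‖t • X‖) ‖(s + t) • X‖ / T.r)
    exact ⟨N, by rwa [div_lt_iff₀ T.r_pos] at hN⟩
  have h1 := (le_max_left _ _).trans_lt ((le_max_left _ _).trans_lt hN)
  have h2 := (le_max_right _ _).trans_lt ((le_max_left _ _).trans_lt hN)
  have h3 := (le_max_right _ _).trans_lt hN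
  have hNpos : (0 : ℝ) < N := by
    by_contra hcon
    have h4 : (N : ℝ) * T.r ≤ 0 := mul_nonpos_of_nonpos_of_nonneg (not_lt.mp hcon) T.r_pos.le
    linarith [norm_nonneg (s • X)]
  rw [T.exp_eq _ N h1, T.exp_eq _ N h2, T.exp_eq _ N h3]
  have key : ∀ u : ℂ, ‖u • X‖ < N * T.r → ‖u • ((N : ℂ)⁻¹ • X)‖ < T.r := by
    intro u hu
    rw [smul_comm, norm_smul, norm_inv, Complex.norm_natCast, inv_mul_lt_iff₀ hNpos]
    exact hu
  have h5 := T.e_add ((N : ℂ)⁻¹ • X) s t (key s h1) (key t h2) (key (s + t) h3)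
  have h6 := T.e_add ((N : ℂ)⁻¹ • X) t s (key t h2) (key s h1)
    (by rw [add_comm]; exact key (s + t) h3)
  rw [smul_comm _ (s + t), smul_comm _ s, smul_comm _ t, h5]
  refine Commute.mul_pow ?_ N
  show T.e _ * T.e _ = T.e _ * T.e _
  rw [← h5, ← h6, add_comm]

theorem isOneParam [LieGroup 𝓘(ℂ, E) ω G] (X : E) : IsOneParam E fun s : ℂ => T.exp (s • X) := by
  refine ⟨?_, fun s t => T.exp_add X s t⟩
  apply T.exp_hol.comp
  apply mdifferentiable_iff_differentiable.mpr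
  exact differentiable_id.smul_const X

theorem log_exp (X : E) (h : ‖X‖ < T.r) : T.log (T.exp X) = X := by
  rw [T.exp_eq_e X h, T.log_e X h]

theorem exp_mem (X : E) (h : ‖X‖ < T.r) : T.exp X ∈ T.U := by
  rw [T.exp_eq_e X h]
  exact T.e_mem X h

theorem exp_log (g : G) (h : g ∈ T.U) : T.exp (T.log g) = g := by
  rw [T.exp_eq_e _ (T.norm_log g h), T.e_log g h]

theorem exp_neg (X : E) : T.exp (-X) = (T.exp X)⁻¹ := by
  have h := T.exp_add X (-1) 1
  simp only [neg_add_cancel, zero_smul, neg_smul, one_smul] at h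
  rw [T.exp_zero] at h
  exact eq_inv_of_mul_eq_one_left h.symm

theorem exp_nsmul (X : E) (n : ℕ) : T.exp ((n : ℂ) • X) = T.exp X ^ n := by
  induction n with
  | zero => simp [T.exp_zero]
  | succ n ih =>
    have h := T.exp_add X (n : ℂ) 1
    rw [one_smul, ih] at h
    rw [pow_succ, ← h]
    push_cast
    rfl

/-- Commuting exponentials. -/
theorem exp_add_of_comm_small (X Y : E) (hX : ‖X‖ < T.r) (hY : ‖Y‖ < T.r) (hXY : ‖X + Y‖ < T.r)
    (h : T.exp X * T.exp Y = T.exp Y * T.exp X) : T.exp (X + Y) = T.exp X * T.exp Y := by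
  rw [T.exp_eq_e X hX, T.exp_eq_e Y hY] at h ⊢
  rw [T.exp_eq_e _ hXY]
  exact T.e_comm X Y hX hY hXY h

/-- Uniqueness of the direction of a one-parameter group. -/
theorem eq_of_exp_smul_eq (X Y : E) (h : ∀ᶠ s : ℂ in 𝓝[≠] 0, T.exp (s • X) = T.exp (s • Y)) :
    X = Y := by
  have h1 : ∀ Z : E, ∀ᶠ s : ℂ in 𝓝[≠] 0, ‖s • Z‖ < T.r := by
    intro Z
    have hc : Continuous fun s : ℂ => ‖s • Z‖ := (continuous_id.smul continuous_const).norm
    have h2 : ∀ᶠ s : ℂ in 𝓝 0, ‖s • Z‖ < T.r :=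
      (isOpen_lt hc continuous_const).mem_nhds (by simpa using T.r_pos)
    exact h2.filter_mono nhdsWithin_le_nhds
  obtain ⟨s, h2, h3, h4, h5⟩ := (h.and ((h1 X).and ((h1 Y).and
    (eventually_mem_nhdsWithin (a := (0 : ℂ)) (s := {0}ᶜ))))).exists
  have h6 := congrArg T.log h2
  rw [T.log_exp _ h3, T.log_exp _ h4] at h6
  exact smul_right_injective E (by simpa using h5) h6

end LocalExp

end Pool.Agent.Work.MP_970e75_an.Full
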