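import Pool.Agent.Work.MP_970e75_an_helper39.LX0

/-!
Block LX: generators of one-parameter groups, the adjoint representation.
-/

set_option autoImplicit false

namespace Pool.Agent.Work.MP_970e75_an.Full

open Filter Topology Set
open scoped Manifold ContDiff Topology
open Pool.Agent.Work.MP_970e75_an.Gen

/-- A holomorphic map which is additive near `0` is linear near `0`. -/
theorem eq_smul_deriv_of_additive {E : Type*} [NormedAddCommGroup E] [NormedSpace ℂ E]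
    (F : ℂ → E) (δ : ℝ) (hδ : 0 < δ)
    (hF : ∀ s ∈ Metric.ball (0 : ℂ) δ, DifferentiableAt ℂ F s)
    (hadd : ∀ s t : ℂ, ‖s‖ < δ → ‖t‖ < δ → F (s + t) = F s + F t) (s : ℂ) (hs : ‖s‖ < δ) :
    F s = s • deriv F 0 := by
  have h0 : F 0 = 0 := by
    have h := hadd 0 0 (by simpa using hδ) (by simpa using hδ)
    rw [add_zero] at h
    exact (add_eq_left.mp h.symm)
  have hd : ∀ x ∈ Metric.ball (0 : ℂ) δ, deriv F x = deriv F 0 := by
    intro x hx
    have h1 : HasDerivAt (fun t => F (x + t)) (deriv F x) 0 := by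
      have h2 : HasDerivAt F (deriv F x) (x + 0) := by
        rw [add_zero]; exact (hF x hx).hasDerivAt
      exact h2.comp_const_add x 0
    have h3 : HasDerivAt (fun t => F x + F t) (deriv F 0) 0 :=
      ((hF 0 (by simpa using hδ)).hasDerivAt).const_add (F x)
    have h4 : (fun t => F (x + t)) =ᶠ[𝓝 0] fun t => F x + F t := by
      filter_upwards [Metric.ball_mem_nhds (0 : ℂ) hδ] with t ht
      exact hadd x t (by simpa using hx) (by simpa using ht)
    exact (h1.congr_of_eventuallyEq h4.symm).unique h3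
  have h5 : DifferentiableOn ℂ (fun x => F x - x • deriv F 0) (Metric.ball 0 δ) := fun x hx =>
    ((hF x hx).sub (differentiableAt_id.smul_const _)).differentiableWithinAt
  have h6 : (Metric.ball (0 : ℂ) δ).EqOn (deriv fun x => F x - x • deriv F 0) 0 := by
    intro x hx
    have h7 : HasDerivAt (fun x => F x - x • deriv F 0) (deriv F x - (1 : ℂ) • deriv F 0) x :=
      (hF x hx).hasDerivAt.sub ((hasDerivAt_id x).smul_const _)
    rw [h7.deriv, hd x hx, one_smul, sub_self]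
    rfl
  have h8 := Metric.isOpen_ball.is_const_of_deriv_eq_zero
    (convex_ball (0 : ℂ) δ).isPreconnected h5 h6 (x := s) (y := 0) (by simpa using hs)
    (by simpa using hδ)
  simp only [h0, zero_smul, sub_zero] at h8
  exact sub_eq_zero.mp h8

namespace LocalExp

variable {E : Type} [NormedAddCommGroup E] [NormedSpace ℂ E] {G : Type}
    [TopologicalSpace G] [ChartedSpace E G] [Group G] (T : LocalExp E G)

theorem log_mdiffAt (g : G) (hg : g ∈ T.U) : MDifferentiableAt 𝓘(ℂ, E) 𝓘(ℂ, E) T.log g :=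
  (T.log_hol g hg).mdifferentiableAt (T.U_open.mem_nhds hg)

theorem log_one : T.log 1 = 0 := by
  rw [← T.e_zero, T.log_e 0 (by simpa using T.r_pos)]

/-- Every holomorphic one-parameter group has a generator. -/
theorem exists_generator (f : ℂ → G) (hf : IsOneParam E f) : ∃ X, ∀ s, f s = T.exp (s • X) := by
  obtain ⟨hfd, hfa⟩ := hf
  have hf0 : f 0 = 1 := by
    have h := hfa 0 0
    rw [add_zero] at h
    exact (mul_eq_left.mp h.symm)
  have hcont : ContinuousAt (fun s => ‖T.log (f s)‖) 0 := by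
    have h1 : ContinuousAt T.log (f 0) := by
      rw [hf0]; exact (T.log_mdiffAt 1 T.one_mem).continuousAt
    exact (h1.comp hfd.continuous.continuousAt).norm
  have h2 : ∀ᶠ s in 𝓝 (0 : ℂ), f s ∈ T.U ∧ ‖T.log (f s)‖ < T.r / 2 := by
    have h3 : ∀ᶠ s in 𝓝 (0 : ℂ), f s ∈ T.U :=
      hfd.continuous.continuousAt.eventually (by
        rw [hf0]; exact T.U_open.mem_nhds T.one_mem)
    have h4 : ∀ᶠ s in 𝓝 (0 : ℂ), ‖T.log (f s)‖ < T.r / 2 := by
      apply hcont.eventually_lt_const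
      show ‖T.log (f 0)‖ < T.r / 2
      rw [hf0, T.log_one, norm_zero]
      exact half_pos T.r_pos
    exact h3.and h4
  obtain ⟨ε, hε, hball⟩ := Metric.eventually_nhds_iff.mp h2
  have hb : ∀ s : ℂ, ‖s‖ < ε → f s ∈ T.U ∧ ‖T.log (f s)‖ < T.r / 2 := fun s hs =>
    hball (by simpa using hs)
  have hadd : ∀ s t : ℂ, ‖s‖ < ε / 2 → ‖t‖ < ε / 2 →
      T.log (f (s + t)) = T.log (f s) + T.log (f t) := by
    intro s t hs ht
    obtain ⟨hs1, hs2⟩ := hb s (by linarith)
    obtain ⟨ht1, ht2⟩ := hb t (by linarith)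
    have h5 : ‖T.log (f s) + T.log (f t)‖ < T.r := by
      refine (norm_add_le _ _).trans_lt (by linarith)
    have h6 : T.e (T.log (f s) + T.log (f t)) = f (s + t) := by
      rw [T.e_comm _ _ (T.norm_log _ hs1) (T.norm_log _ ht1) h5, T.e_log _ hs1, T.e_log _ ht1,
        hfa]
      rw [T.e_log _ hs1, T.e_log _ ht1, ← hfa, ← hfa, add_comm]
    rw [← h6, T.log_e _ h5]
  have hdiff : ∀ s ∈ Metric.ball (0 : ℂ) (ε / 2), DifferentiableAt ℂ (fun s => T.log (f s)) s := by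
    intro s hs
    have hs' : ‖s‖ < ε / 2 := by simpa using hs
    have h7 := (T.log_mdiffAt (f s) (hb s (by linarith)).1).comp s (hfd s)
    exact mdifferentiableAt_iff_differentiableAt.mp h7
  have hlin := eq_smul_deriv_of_additive (fun s => T.log (f s)) (ε / 2) (half_pos hε) hdiff hadd
  refine ⟨deriv (fun s => T.log (f s)) 0, ?_⟩
  have hsmall : ∀ s : ℂ, ‖s‖ < ε / 2 → f s = T.exp (s • deriv (fun s => T.log (f s)) 0) := by
    intro s hs
    rw [← hlin s hs, T.exp_log _ (hb s (by linarith)).1]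
  intro s
  obtain ⟨N, hN⟩ := exists_nat_gt (‖s‖ / (ε / 2))
  rw [div_lt_iff₀ (half_pos hε)] at hN
  have hNpos : (0 : ℝ) < N := by
    by_contra hcon
    have h4 : (N : ℝ) * (ε / 2) ≤ 0 :=
      mul_nonpos_of_nonpos_of_nonneg (not_lt.mp hcon) (half_pos hε).le
    linarith [norm_nonneg s]
  have hN0 : (N : ℂ) ≠ 0 := by
    have : (N : ℝ) ≠ 0 := hNpos.ne'
    exact_mod_cast this
  have h8 : ∀ k : ℕ, ∀ u : ℂ, f ((k : ℂ) * u) = f u ^ k := by
    intro k u
    induction k with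
    | zero => simp [hf0]
    | succ k ih =>
      rw [pow_succ, ← ih, ← hfa]
      congr 1
      push_cast
      ring
  have h9 : (N : ℂ) * (s / N) = s := mul_div_cancel₀ s hN0
  have h10 : ‖s / N‖ < ε / 2 := by
    rw [norm_div, Complex.norm_natCast, div_lt_iff₀ hNpos, mul_comm]
    exact hN
  calc f s = f ((N : ℂ) * (s / N)) := by rw [h9]
    _ = T.exp ((s / N) • deriv (fun s => T.log (f s)) 0) ^ N := by rw [h8, ← hsmall _ h10]
    _ = T.exp (s • deriv (fun s => T.log (f s)) 0) := by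
        rw [← T.exp_nsmul, smul_smul, h9]

/-! ### The adjoint representation -/

variable [LieGroup 𝓘(ℂ, E) ω G]

theorem exists_conj (g : G) (X : E) : ∃ Y, ∀ s : ℂ, g * T.exp (s • X) * g⁻¹ = T.exp (s • Y) := by
  refine T.exists_generator (fun s => g * T.exp (s • X) * g⁻¹) ⟨?_, ?_⟩
  · exact mdiff_mul (mdiff_mul mdifferentiable_const (T.isOneParam X).1) mdifferentiable_const
  · intro s t
    show g * T.exp ((s + t) • X) * g⁻¹ = g * T.exp (s • X) * g⁻¹ * (g * T.exp (t • X) * g⁻¹)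
    rw [T.exp_add]
    group

/-- The adjoint representation. -/
noncomputable def Ad (g : G) : E →L[ℂ] E := fderiv ℂ (fun X => T.log (g * T.exp X * g⁻¹)) 0

theorem hasFDerivAt_Ad (g : G) :
    HasFDerivAt (fun X => T.log (g * T.exp X * g⁻¹)) (T.Ad g) 0 := by
  apply DifferentiableAt.hasFDerivAt
  apply mdifferentiableAt_iff_differentiableAt.mp
  have h1 : MDifferentiable 𝓘(ℂ, E) 𝓘(ℂ, E) fun X : E => g * T.exp X * g⁻¹ :=
    mdiff_mul (mdiff_mul mdifferentiable_const T.exp_hol) mdifferentiable_const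
  have h2 : g * T.exp 0 * g⁻¹ = 1 := by rw [T.exp_zero, mul_one, mul_inv_cancel]
  exact MDifferentiableAt.comp (g := T.log) 0 (by rw [h2]; exact T.log_mdiffAt 1 T.one_mem)
    (h1 0)

theorem exp_smul_Ad (g : G) (X : E) (s : ℂ) :
    T.exp (s • T.Ad g X) = g * T.exp (s • X) * g⁻¹ := by
  obtain ⟨Y, hY⟩ := T.exists_conj g X
  have h1 : HasDerivAt (fun s : ℂ => T.log (g * T.exp (s • X) * g⁻¹)) (T.Ad g X) 0 := by
    have h2 : HasDerivAt (fun s : ℂ => s • X) X 0 := by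
      simpa using (hasDerivAt_id (0 : ℂ)).smul_const X
    have h3 := T.hasFDerivAt_Ad g
    rw [← zero_smul ℂ X] at h3
    exact h3.comp_hasDerivAt 0 h2
  have h4 : HasDerivAt (fun s : ℂ => s • Y) Y 0 := by
    simpa using (hasDerivAt_id (0 : ℂ)).smul_const Y
  have h5 : (fun s : ℂ => T.log (g * T.exp (s • X) * g⁻¹)) =ᶠ[𝓝 0] fun s => s • Y := by
    have hc : Continuous fun s : ℂ => ‖s • Y‖ := (continuous_id.smul continuous_const).norm
    have h6 : ∀ᶠ s : ℂ in 𝓝 0, ‖s • Y‖ < T.r :=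
      (isOpen_lt hc continuous_const).mem_nhds (by simpa using T.r_pos)
    filter_upwards [h6] with s hs
    rw [hY s, T.log_exp _ hs]
  have h7 : T.Ad g X = Y := h1.unique (h4.congr_of_eventuallyEq h5)
  rw [h7, hY]

theorem exp_Ad (g : G) (X : E) : T.exp (T.Ad g X) = g * T.exp X * g⁻¹ := by
  have := T.exp_smul_Ad g X 1
  rwa [one_smul, one_smul] at this

theorem Ad_eq (g : G) (X Y : E) (h : ∀ s : ℂ, g * T.exp (s • X) * g⁻¹ = T.exp (s • Y)) :
    T.Ad g X = Y := by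
  apply T.eq_of_exp_smul_eq
  exact Eventually.of_forall fun s => by rw [T.exp_smul_Ad, h]

theorem Ad_one : T.Ad 1 = ContinuousLinearMap.id ℂ E := by
  ext X
  apply T.Ad_eq
  intro s
  simp

theorem Ad_mul (g h : G) : T.Ad (g * h) = (T.Ad g).comp (T.Ad h) := by
  ext X
  apply T.Ad_eq
  intro s
  show _ = T.exp (s • T.Ad g (T.Ad h X))
  rw [T.exp_smul_Ad, T.exp_smul_Ad]
  group

/-- The adjoint representation through the logarithm. -/
theorem Ad_eq_log (X : E) (g : G) (s₀ : ℝ) (hs₀ : 0 < s₀)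
    (h : ∀ s ∈ Icc 0 s₀, g * T.exp ((s : ℂ) • X) * g⁻¹ ∈ T.U) :
    T.Ad g X = (s₀ : ℂ)⁻¹ • T.log (g * T.exp ((s₀ : ℂ) • X) * g⁻¹) := by
  have hnorm : ∀ s : ℝ, 0 ≤ s → ‖(s : ℂ) • T.Ad g X‖ = s * ‖T.Ad g X‖ := by
    intro s hs
    rw [norm_smul, Complex.norm_real, Real.norm_eq_abs, abs_of_nonneg hs]
  have hlt : s₀ * ‖T.Ad g X‖ < T.r := by
    by_contra hcon
    push Not at hcon
    have hY : 0 < ‖T.Ad g X‖ := by
      by_contra h0
      have : ‖T.Ad g X‖ = 0 := le_antisymm (not_lt.mp h0) (norm_nonneg _)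
      rw [this, mul_zero] at hcon
      linarith [T.r_pos]
    set s₁ : ℝ := T.r / ‖T.Ad g X‖ with hs₁
    have hs₁0 : 0 < s₁ := div_pos T.r_pos hY
    have hs₁le : s₁ ≤ s₀ := by rw [hs₁, div_le_iff₀ hY]; exact hcon
    have hs₁r : s₁ * ‖T.Ad g X‖ = T.r := div_mul_cancel₀ _ hY.ne'
    have hmem : T.exp ((s₁ : ℂ) • T.Ad g X) ∈ T.U := by
      rw [T.exp_smul_Ad]
      exact h s₁ ⟨hs₁0.le, hs₁le⟩
    have hc1 : Continuous fun s : ℝ => (s : ℂ) • T.Ad g X :=
      Complex.continuous_ofReal.smul continuous_const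
    have hc : ContinuousAt (fun s : ℝ => T.log (T.exp ((s : ℂ) • T.Ad g X))) s₁ :=
      ContinuousAt.comp (g := T.log) (T.log_mdiffAt _ hmem).continuousAt
        (T.exp_hol.continuous.comp hc1).continuousAt
    have ht1 : Tendsto (fun s : ℝ => T.log (T.exp ((s : ℂ) • T.Ad g X))) (𝓝[<] s₁)
        (𝓝 (T.log (T.exp ((s₁ : ℂ) • T.Ad g X)))) := hc.mono_left nhdsWithin_le_nhds
    have ht2 : Tendsto (fun s : ℝ => (s : ℂ) • T.Ad g X) (𝓝[<] s₁)
        (𝓝 ((s₁ : ℂ) • T.Ad g X)) := (hc1.tendsto s₁).mono_left nhdsWithin_le_nhds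
    have heq : (fun s : ℝ => T.log (T.exp ((s : ℂ) • T.Ad g X))) =ᶠ[𝓝[<] s₁]
        fun s : ℝ => (s : ℂ) • T.Ad g X := by
      filter_upwards [self_mem_nhdsWithin,
        nhdsWithin_le_nhds (Ioi_mem_nhds hs₁0)] with s hs hs0
      apply T.log_exp
      rw [hnorm s (le_of_lt hs0), ← hs₁r]
      have : s < s₁ := hs
      gcongr
    have h3 := tendsto_nhds_unique (ht1.congr' heq) ht2
    have h4 := T.norm_log _ hmem
    rw [h3, hnorm s₁ hs₁0.le, hs₁r] at h4
    exact lt_irrefl _ h4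
  rw [← T.exp_smul_Ad, T.log_exp _ (by rw [hnorm s₀ hs₀.le]; exact hlt), smul_smul,
    inv_mul_cancel₀ (by exact_mod_cast hs₀.ne'), one_smul]

theorem Ad_hol_apply (X : E) : MDifferentiable 𝓘(ℂ, E) 𝓘(ℂ, E) fun g => T.Ad g X := by
  have hTG : IsTopologicalGroup G := topologicalGroup_of_lieGroup 𝓘(ℂ, E) ω
  intro g₀
  have hcont : Continuous fun p : ℝ × G => p.2 * T.exp ((p.1 : ℂ) • X) * p.2⁻¹ := by
    have h1 : Continuous fun p : ℝ × G => T.exp ((p.1 : ℂ) • X) :=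
      T.exp_hol.continuous.comp
        ((Complex.continuous_ofReal.comp continuous_fst).smul continuous_const)
    exact (continuous_snd.mul h1).mul continuous_snd.inv
  have hmem : ∀ᶠ p : ℝ × G in 𝓝 (0, g₀), p.2 * T.exp ((p.1 : ℂ) • X) * p.2⁻¹ ∈ T.U := by
    apply hcont.continuousAt.eventually
    have : g₀ * T.exp (((0 : ℝ) : ℂ) • X) * g₀⁻¹ = 1 := by
      rw [Complex.ofReal_zero, zero_smul, T.exp_zero, mul_one, mul_inv_cancel]
    show T.U ∈ 𝓝 (g₀ * T.exp (((0 : ℝ) : ℂ) • X) * g₀⁻¹)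
    rw [this]
    exact T.U_open.mem_nhds T.one_mem
  rw [nhds_prod_eq, eventually_prod_iff] at hmem
  obtain ⟨pa, ha, pb, hb, hab⟩ := hmem
  obtain ⟨ε, hε, hball⟩ := Metric.eventually_nhds_iff.mp ha
  have hin : ∀ᶠ g in 𝓝 g₀, ∀ s ∈ Icc 0 (ε / 2), g * T.exp ((s : ℂ) • X) * g⁻¹ ∈ T.U := by
    filter_upwards [hb] with g hg s hs
    refine hab (x := s) (hball ?_) hg
    rw [dist_zero_right, Real.norm_eq_abs, abs_of_nonneg hs.1]
    linarith [hs.2]
  have heq : (fun g => T.Ad g X) =ᶠ[𝓝 g₀] fun g =>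
      (((ε / 2 : ℝ) : ℂ))⁻¹ • T.log (g * T.exp (((ε / 2 : ℝ) : ℂ) • X) * g⁻¹) := by
    filter_upwards [hin] with g hg
    exact T.Ad_eq_log X g (ε / 2) (half_pos hε) hg
  refine MDifferentiableAt.congr_of_eventuallyEq ?_ heq
  have h2 : MDifferentiable 𝓘(ℂ, E) 𝓘(ℂ, E) fun g : G =>
      g * T.exp (((ε / 2 : ℝ) : ℂ) • X) * g⁻¹ :=
    mdiff_mul (mdiff_mul mdifferentiable_id mdifferentiable_const)
      (mdiff_inv mdifferentiable_id)
  have h3 : MDifferentiableAt 𝓘(ℂ, E) 𝓘(ℂ, E) (fun g : G =>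
      T.log (g * T.exp (((ε / 2 : ℝ) : ℂ) • X) * g⁻¹)) g₀ :=
    (T.log_mdiffAt _ (hin.self_of_nhds (ε / 2) ⟨(half_pos hε).le, le_rfl⟩)).comp g₀ (h2 g₀)
  exact h3.const_smul _

theorem Ad_hol [FiniteDimensional ℂ E] : MDifferentiable 𝓘(ℂ, E) 𝓘(ℂ, E →L[ℂ] E) T.Ad := by
  let b := Module.finBasis ℂ E
  let Φ : Fin (Module.finrank ℂ E) → E →L[ℂ] (E →L[ℂ] E) := fun i =>
    ContinuousLinearMap.smulRightL ℂ E E (LinearMap.toContinuousLinearMap (b.coord i))
  have h1 : T.Ad = ∑ i, fun g => Φ i (T.Ad g (b i)) := by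
    funext g
    ext x
    rw [Finset.sum_apply, sum_apply]
    conv_lhs => rw [← b.sum_repr x, map_sum]
    refine Finset.sum_congr rfl fun i _ => ?_
    rw [map_smul]
    rfl
  rw [h1]
  apply MDifferentiable.sum
  intro i _
  exact (Φ i).mdifferentiable.comp (T.Ad_hol_apply (b i))

end LocalExp

end Pool.Agent.Work.MP_970e75_an.Full
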